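import Pool.Agent.W5h58.MW.AlmostAll

/-!
# MP_855f4c_ag: the monodromy-weight conjecture for degenerations with general double loci

Let `F i`, for `i` in a finite set, be families of Weil polynomials in characteristic `p` with large
symplectic or orthogonal monodromy: to every parameter `s` in the finite set `S_i(m)` of the parameters
with coordinates in the field with `q = p ^ m` elements belongs the characteristic polynomial of the
Frobenius endomorphism on the primitive (vanishing) middle cohomology of a variety `X_(i, s)`. For
example all smooth hypersurface sections of given large degree of a fixed variety, smooth
hypersurfaces, double covers, or curves of given genus, of any dimension. Let `ε > 0`. Then for all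
large `m`, for all but at most `ε * ∏ i, #S_i(m)` of the tuples `s` in the product of the sets `S_i(m)`,
the monodromy-weight conjecture holds, in all degrees, for **all** projective strictly semistable schemes
`X`, of any relative dimension `n`, over any henselian discrete valuation ring with residue field with
`q` elements, such that the strata `Y^(2), Y^(4), Y^(6), ...` of even multiplicity of the special fibre
are composed of the varieties `X_(i, s_i)`. This means that the primitive cohomology of these strata is
zero in the degrees `w` with `2 ≤ w < dim`, and that in the middle degree the characteristic polynomial
of the Frobenius is the product of those of the `X_(i, s_i)`.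

There is no condition at all on the components of the special fibre and on the strata
`Y^(3), Y^(5), ...` of odd multiplicity. So if there are no points of multiplicity four on the special
fibre, the only condition is that the double locus is general. Neither the Tate conjecture nor any case
of the Hodge standard conjecture (except for the Hodge index theorem) is assumed.

Members with forced Frobenius eigenvalues `± q ^ (dim / 2)` (`extra ≠ 0`) are allowed only if there is
only one of them, and if there are no points of multiplicity `n + 1`.
-/

open Polynomial

universe w x

namespace Pool.Agent.Results.MP_855f4c_ag.AlmostAllEvenStrata

open Pool.Agent.W458.MF Pool.Agent.W5h58.MW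

/-- **The monodromy-weight conjecture for all strictly semistable schemes whose strata of even
multiplicity are composed of almost all members of families with large monodromy.** -/
theorem result (p : ℕ) (hp : p.Prime) {I : Type} [Fintype I] (F : I → WeilFamily) (b : I → ℕ)
    (hF : ∀ i, (F i).HasLargeMonodromy p) (ε : ℝ) (hε : 0 < ε) :
    ∃ m₀ : ℕ, ∀ m ≥ m₀, ({s : ∀ i, (F i).S m |
        ¬ MonodromyWeightFor.{w, x} (fun i => (F i).frobPoly p m (s i)) b
          (fun i => (F i).extra) (p ^ m)}.ncard : ℝ) ≤
      ε * ∏ i, (Nat.card ((F i).S m) : ℝ) :=
  final_mw p hp F b hF ε hε

end Pool.Agent.Results.MP_855f4c_ag.AlmostAllEvenStrata
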