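import Pool.Agent.W5h86.MW.Near

/-!
# The monodromy-weight conjecture near a degenerate fibre, and over an annulus

Let `K` be a complete discretely valued field of characteristic `0` with finite residue field of
`q` elements, and let `A` be an open annulus or punctured disc with parameter `t` in a curve over
`K`, over which there is a smooth projective family, such that the geometric monodromy around `A`
on the cohomology in degree `i` is unipotent and given by the Kummer covering of `t`. Then (after a
finite extension of `K`) there is one space `V` with the Frobenius `Φ`, the geometric monodromy `N₁`
and the arithmetic monodromy `N₂` (`Pencil`) such that for every point `s` of `A` over a finite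
extension `K'` of `K`, with `m = v(t(s))`, the cohomology `H^i(X_s)` of the member `X_s`, with the
action of the Galois group of `K'`, is `V` with the Frobenius `exp (c N₁) Φ^f exp (c' N₂)` and the
monodromy `e (N₂ + m N₁)` (`IsMember`).

We prove that the monodromy-weight conjecture in degree `i` holds for all members, except those on
at most `(dim V)^2 / 2` circles `v(t(s)) = m`, in each of the following cases:

1. (`HasPureMember`) It holds for one of the members.
2. (`IsNearPureFibre`) The family extends to a projective morphism `X → S` onto a smooth curve over
   `K`, where `X` is smooth over `K` and the fibre `Y = ⋃ Y_j` over a point `s₀ ∈ S(K)` is a reduced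
   divisor with strict normal crossings (a degeneration in characteristic zero; no model over the
   ring of integers is given), `A` is a small punctured disc around `s₀`, and the cohomology groups
   `H^m(Y^(a+1))` of the strata with `i - 1 ≤ a + m ≤ i + 1` are mw pure of weight `m`. Here `V` is
   the nearby cohomology `H^i(Y, RΨ Ω)`, which is computed by the weight spectral sequence
   (Rapoport-Zink, Steenbrink) from the cohomology of the strata `Y^(a+1)` (`Strata`), smooth
   projective varieties over `K`, and the filtration of this sequence is the monodromy filtration of
   `N₁` (the monodromy-weight theorem in residue characteristic zero). After shrinking the disc the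
   conjecture holds for all members.
3. (`IsNearPureComponent`) One end of the annulus is a component `C` of the special fibre of a
   semistable model of the curve, and the conjecture holds for one member of the family which
   reduces to `C`. Here the input is the theory of weights of sheaves on `C` (Weil II).

If moreover `N₂ = 0`, there are no exceptions (the set `{0}` is the circle `v(t(s)) = 0`), for
example in case 2 if the degeneration is semistable over the ring of integers.

The hypothesis in 2 is known for strata of dimension at most two (Rapoport-Zink), for complete
intersections in toric varieties (Scholze), for cohomology of coniveau one in degree three, and for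
members of families as above. So for instance the conjecture holds for all Calabi-Yau threefolds
near a degenerate fibre `Y₁ ∪ Y₂` over `K` where `Y₁`, `Y₂` are threefolds with `H^3` of coniveau
one (e.g. rationally connected), which meet in an arbitrary K3 surface.
-/

set_option autoImplicit false

open Module

namespace Pool.Agent.Results.MP_855f4c_ag.NearDegenerateFibres

open Pool.Agent.W5h86.MW Pool.Agent.Y143

universe u v

theorem result {Ω : Type u} [Field Ω] [CharZero Ω] [IsAlgClosed Ω] {q : ℕ} (hq : IsPrimePow q)
    (P : Pencil.{u, v} Ω q) (i : ℕ)
    -- one member, the strata of the degenerate fibre, or one member reducing to a component at
    -- the end of the annulus are mw pure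
    (h : P.HasPureMember i ∨ P.IsNearPureFibre i ∨ P.IsNearPureComponent i) :
    -- all members are mw pure, except those on finitely many circles
    (∃ X : Finset ℚ, 2 * X.card ≤ (finrank Ω P.V) ^ 2 ∧ P.IsPureOutside i X) ∧
    (P.N₂ = 0 → P.IsPureOutside i {0}) := by
  have hq1 : 1 < q := hq.one_lt
  have H : P.HasHL i := by
    rcases h with h | h | h
    · exact h.HL hq1
    · exact h.HL hq1
    · exact h.HL hq1
  exact ⟨H.radii hq1, H.zero hq1⟩

end Pool.Agent.Results.MP_855f4c_ag.NearDegenerateFibres
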