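import Pool.Agent.W5h58.MW.Absent

/-!
# MP_855f4c_ag: the monodromy-weight conjecture and the primitive parts of the restriction maps

Let `X` be a projective strictly semistable scheme of relative dimension `n` over the henselian
discrete valuation ring `O`, and `Y^(m)` the disjoint union of the intersections of `m` different
components of the geometric special fibre, of dimension `n + 1 - m`. The restriction maps
`H^w(Y^(a+1)) → H^w(Y^(a+2))` of the weight spectral sequence induce maps
`ρ : P^w(Y^(a+1)) → P^w(Y^(a+2))` of the primitive cohomology (restriction followed by the projection
along the image of the Lefschetz operator), for `a + 1 + w ≤ n`.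

The theorem says that only these maps `ρ`, for `w ≥ 2`, matter for the monodromy-weight conjecture:
`H^k` of the geometric generic fibre is mw pure of weight `k` if for all `a ≥ 0` and `w ≥ 2` with
`a + 1 + w ≤ min(k, 2 n - k)` and for every character `χ` of a commuting family of correspondences
which contains the Frobenius (in the simplest case: for every Frobenius eigenvalue `χ`)

* `ρ` is zero on the classes of character `χ`, for example because `χ` does not occur in both of
  `P^w(Y^(a+1))` and `P^w(Y^(a+2))`, or
* `w = 2` and the classes of character `χ` in `H^2(Y^(a+1))` are algebraic, or
* `χ` is simple in the primitive part of `E_1^(a+1, w)` (of multiplicity at most one, or contained in,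
  or disjoint from, the coboundaries), or the dual character is covered by coboundaries.

In particular the conjecture holds for `X`, in all degrees and without any further hypothesis, if the
primitive cohomology of each of the strata `Y^(1), Y^(2), ...` is zero except in the degrees `0`, `1`
and in the middle degree, or more generally if no Frobenius eigenvalue occurs in both of
`P^w(Y^(a+1))` and `P^w(Y^(a+2))` for `w ≥ 2`. Neither the Tate conjecture nor any case of the Hodge
standard conjecture is needed, except for the Hodge index theorem.
-/

namespace Pool.Agent.Results.MP_855f4c_ag.PrimitiveRestrictions

universe u v

open Pool.Agent.Y143 Pool.Agent.X302.MW Pool.Agent.W5h58.MW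

/-- **The monodromy-weight conjecture for degenerations whose primitive restriction maps vanish on all
characters which are neither simple nor algebraic of weight two.** Here `X` is the weight spectral
sequence of Rapoport and Zink of a projective strictly semistable scheme, with its operators, and `A`
are the classes of components and of divisors on the strata, with the Hodge index theorem and the
positivity of the polarizations of the Picard varieties. -/
theorem result {Ω : Type u} [Field Ω] [CharZero Ω] [IsAlgClosed Ω] {Γ : Type} {n q : ℕ}
    (X : Degeneration.{u, v} Ω Γ n q) (A : DivisorClasses X.toSpecialFibre) (k : ℕ)
    (h : ∀ (a w : ℕ) (χ : Γ → Ω), 2 ≤ w → a + 1 + w ≤ k → a + 1 + w + k ≤ 2 * n →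
      HarmlessAt A a w χ) :
    IsMWPure q k (X.actV k X.frob) (X.N k) :=
  Pool.Agent.W5h58.MW.mw X A k h

end Pool.Agent.Results.MP_855f4c_ag.PrimitiveRestrictions
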