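import Pool.Agent.W5h58.MW.Three

/-!
# MP_855f4c_ag: the monodromy-weight conjecture for threefolds with general double surfaces

Let `F i`, for `i` in a finite set, be families of Weil polynomials in characteristic `p` with large
symplectic or orthogonal monodromy: to every parameter `s` in the finite set `S_i(m)` of the parameters
with coordinates in the field with `q = p ^ m` elements belongs the characteristic polynomial of the
Frobenius endomorphism on the vanishing cohomology of a surface `X_(i, s)`; for example all smooth
surfaces of given degree in the projective space, or of given large degree in a fixed threefold. Let
`ε > 0`. Then for all large `m`, for all but at most `ε * ∏ i, #S_i(m)` of the tuples `s` in the product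
of the sets `S_i(m)`, the monodromy-weight conjecture holds, in all degrees, for **all** strictly
semistable threefolds `X` over henselian discrete valuation rings with residue field with `q` elements
such that

* the components of the special fibre satisfy the Tate conjecture for divisors, and
* the characteristic polynomial of the Frobenius on `H^2(Y^(2))` is the product of those of the
  `X_(i, s_i)` and of a polynomial all of whose roots are products of `q` and roots of unity.

So the double surfaces may have any number of Tate classes, algebraic or not, and any number of forced
Frobenius eigenvalues; the triple curves and the quadruple points of the special fibre are arbitrary.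
Only the Tate conjecture for divisors on the components is assumed; in the theorem of Ito the whole of
`H^2` of the components is algebraic.
-/

open Polynomial

universe w x

namespace Pool.Agent.Results.MP_855f4c_ag.ThreefoldsAlmostAll

open Pool.Agent.W458.MF Pool.Agent.W5h58.MW

/-- **The monodromy-weight conjecture for all strictly semistable threefolds whose double surfaces are
composed, up to Tate classes, of almost all members of families with large monodromy, and whose
components satisfy the Tate conjecture for divisors.** -/
theorem result (p : ℕ) (hp : p.Prime) {I : Type} [Fintype I] (F : I → WeilFamily)
    (hF : ∀ i, (F i).HasLargeMonodromy p) (ε : ℝ) (hε : 0 < ε) :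
    ∃ m₀ : ℕ, ∀ m ≥ m₀, ({s : ∀ i, (F i).S m |
        ¬ ThreefoldsWith.{w, x} (fun i => (F i).frobPoly p m (s i)) (p ^ m)}.ncard : ℝ) ≤
      ε * ∏ i, (Nat.card ((F i).S m) : ℝ) :=
  final_three p hp F hF ε hε

end Pool.Agent.Results.MP_855f4c_ag.ThreefoldsAlmostAll
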